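import Mathlib

namespace Pool.Agent.Results.MP_9a7beb_co.Counter

/-- outer-connected dominating set -/
def OCD {W : Type} (H : SimpleGraph W) (D : Finset W) : Prop :=
  (∀ x, x ∉ D → ∃ y ∈ D, H.Adj x y) ∧ (H.induce ((D : Set W)ᶜ)).Preconnected

noncomputable def ocd {W : Type} (H : SimpleGraph W) : ℕ :=
  sInf {k | ∃ D, OCD H D ∧ D.card = k}

/-- middle graph -/
def mid {V : Type} (G : SimpleGraph V) : SimpleGraph (V ⊕ G.edgeSet) where
  Adj
    | .inl _, .inl _ => False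
    | .inl v, .inr e => v ∈ (e : Sym2 V)
    | .inr e, .inl v => v ∈ (e : Sym2 V)
    | .inr e, .inr f => G.lineGraph.Adj e f
  symm := ⟨by
    rintro (a | a) (b | b) h
    · exact h
    · exact h
    · exact h
    · exact SimpleGraph.Adj.symm h⟩
  loopless := ⟨by
    rintro (a | a) h
    · exact h
    · exact G.lineGraph.irrefl h⟩

def el : List (Fin 10 × Fin 10) :=
  [(0,1),(1,2),(2,3),(0,3),(0,2),(1,4),(4,5),(5,7),(6,7),(7,8),(8,9),(6,9),(6,8)]

def G : SimpleGraph (Fin 10) where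
  Adj a b := (a, b) ∈ el ∨ (b, a) ∈ el
  symm := ⟨fun _ _ h => h.symm⟩
  loopless := ⟨by decide⟩

instance : DecidableRel G.Adj := fun _ _ => inferInstanceAs (Decidable (_ ∨ _))

def p (i : Fin 13) : Fin 10 × Fin 10 := el.getD i (0, 1)

theorem hp : ∀ i, G.Adj (p i).1 (p i).2 := by decide

def ed (i : Fin 13) : G.edgeSet := ⟨s((p i).1, (p i).2), hp i⟩

theorem ed_inj : Function.Injective ed := by
  have : ∀ i j : Fin 13, s((p i).1, (p i).2) = s((p j).1, (p j).2) → i = j := by decide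
  exact fun i j h => this i j (congrArg Subtype.val h)

theorem ed_surj (e : G.edgeSet) : ∃ i, e = ed i := by
  obtain ⟨e, he⟩ := e
  induction e using Sym2.ind with
  | h a b =>
    have : ∀ a b, G.Adj a b → ∃ i, s(a, b) = s((p i).1, (p i).2) := by decide
    obtain ⟨i, hi⟩ := this a b he
    exact ⟨i, Subtype.ext hi⟩

def A (i j : Fin 13) : Prop :=
  i ≠ j ∧ ((p i).1 = (p j).1 ∨ (p i).1 = (p j).2 ∨ (p i).2 = (p j).1 ∨ (p i).2 = (p j).2)

instance : DecidableRel A := fun _ _ => inferInstanceAs (Decidable (_ ∧ _))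

theorem adj_iff (i j : Fin 13) : G.lineGraph.Adj (ed i) (ed j) ↔ A i j := by
  rw [SimpleGraph.lineGraph_adj_iff_exists, ed_inj.ne_iff]
  refine and_congr Iff.rfl ?_
  simp only [ed, Sym2.mem_iff]
  constructor
  · rintro ⟨v, rfl | rfl, h | h⟩ <;> simp [h]
  · rintro (h | h | h | h)
    · exact ⟨_, Or.inl rfl, Or.inl h⟩
    · exact ⟨_, Or.inl rfl, Or.inr h⟩
    · exact ⟨_, Or.inr rfl, Or.inl h⟩
    · exact ⟨_, Or.inr rfl, Or.inr h⟩

theorem stay : ∀ j : Fin 13, 5 ≤ j.val → j.val ≤ 7 → ∀ a b, A a b → a < j → b ≠ j → b < j := by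
  decide

theorem small : ∀ E : Finset (Fin 13), E.card ≤ 6 → (∀ x, x ∉ E → ∃ y ∈ E, A x y) →
    ∃ j ∈ E, 5 ≤ j.val ∧ j.val ≤ 7 ∧ ∃ a, a ∉ E ∧ a < j ∧ ∃ b, b ∉ E ∧ j < b := by
  intro E hc hd
  have h6 : ∀ y, A 6 y → y = 5 ∨ y = 7 := by decide
  have hj : ∃ j ∈ E, 5 ≤ j.val ∧ j.val ≤ 7 := by
    by_cases h : 6 ∈ E
    · exact ⟨6, h, by decide, by decide⟩
    · obtain ⟨y, hy, ha⟩ := hd 6 h
      rcases h6 y ha with rfl | rfl
      · exact ⟨5, hy, by decide, by decide⟩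
      · exact ⟨7, hy, by decide, by decide⟩
  have hl : ∃ l ∈ E, l.val < 5 := by
    by_cases h : 2 ∈ E
    · exact ⟨2, h, by decide⟩
    · obtain ⟨y, hy, ha⟩ := hd 2 h
      exact ⟨y, hy, (by decide : ∀ y, A 2 y → y.val < 5) y ha⟩
  have hr : ∃ r ∈ E, 7 < r.val := by
    by_cases h : 10 ∈ E
    · exact ⟨10, h, by decide⟩
    · obtain ⟨y, hy, ha⟩ := hd 10 h
      exact ⟨y, hy, (by decide : ∀ y, A 10 y → 7 < y.val) y ha⟩
  obtain ⟨j, hjE, h5, h7⟩ := hj
  obtain ⟨l, hlE, hl5⟩ := hl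
  obtain ⟨r, hrE, hr7⟩ := hr
  refine ⟨j, hjE, h5, h7, ?_⟩
  have ha : ∃ a, a ∉ E ∧ a < j := by
    by_contra hn
    push Not at hn
    have hs : insert r (insert j (Finset.univ.filter fun a : Fin 13 => a.val < 5)) ⊆ E := by
      intro x hx
      simp only [Finset.mem_insert, Finset.mem_filter, Finset.mem_univ, true_and] at hx
      rcases hx with rfl | rfl | hx
      · exact hrE
      · exact hjE
      · by_contra hx'
        have := hn x hx'
        omega
    have := Finset.card_le_card hs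
    rw [Finset.card_insert_of_notMem (by simp; omega), Finset.card_insert_of_notMem (by simp; omega),
      (by decide : (Finset.univ.filter fun a : Fin 13 => a.val < 5).card = 5)] at this
    omega
  have hb : ∃ b, b ∉ E ∧ j < b := by
    by_contra hn
    push Not at hn
    have hs : insert l (insert j (Finset.univ.filter fun a : Fin 13 => 7 < a.val)) ⊆ E := by
      intro x hx
      simp only [Finset.mem_insert, Finset.mem_filter, Finset.mem_univ, true_and] at hx
      rcases hx with rfl | rfl | hx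
      · exact hlE
      · exact hjE
      · by_contra hx'
        have := hn x hx'
        omega
    have := Finset.card_le_card hs
    rw [Finset.card_insert_of_notMem (by simp; omega), Finset.card_insert_of_notMem (by simp; omega),
      (by decide : (Finset.univ.filter fun a : Fin 13 => 7 < a.val).card = 5)] at this
    omega
  obtain ⟨a, ha, ha'⟩ := ha
  obtain ⟨b, hb, hb'⟩ := hb
  exact ⟨a, ha, ha', b, hb, hb'⟩

theorem lowL (D : Finset G.edgeSet) (h : OCD G.lineGraph D) : 7 ≤ D.card := by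
  classical
  by_contra hc
  let E : Finset (Fin 13) := Finset.univ.filter fun i => ed i ∈ D
  have mE : ∀ i, i ∈ E ↔ ed i ∈ D := fun i => by simp [E]
  have hE : E.card ≤ D.card :=
    Finset.card_le_card_of_injOn ed (fun i hi => (mE i).1 hi) ed_inj.injOn
  obtain ⟨j, hj, h5, h7, a, ha, haj, b, hb, hjb⟩ := small E (by omega) fun x hx => by
    obtain ⟨y, hy, hxy⟩ := h.1 (ed x) (fun h' => hx ((mE x).2 h'))
    obtain ⟨i, rfl⟩ := ed_surj y
    exact ⟨i, (mE i).2 hy, (adj_iff x i).1 hxy⟩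
  have hr := h.2 ⟨ed a, fun h' => ha ((mE a).2 h')⟩ ⟨ed b, fun h' => hb ((mE b).2 h')⟩
  rw [SimpleGraph.reachable_iff_reflTransGen] at hr
  have key : ∀ z : ((D : Set G.edgeSet)ᶜ : Set G.edgeSet),
      Relation.ReflTransGen (G.lineGraph.induce ((D : Set G.edgeSet)ᶜ)).Adj
        ⟨ed a, fun h' => ha ((mE a).2 h')⟩ z → ∀ i, z.1 = ed i → i < j := by
    intro z hz
    induction hz with
    | refl => intro i hi; rw [← ed_inj hi]; exact haj
    | @tail u w _ huw ih =>
      intro i hi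
      obtain ⟨k, hk⟩ := ed_surj u.1
      have h1 : G.lineGraph.Adj u.1 w.1 := huw
      rw [hk, hi, adj_iff] at h1
      refine stay j h5 h7 k i h1 (ih k hk) ?_
      rintro rfl
      exact w.2 (hi ▸ (mE i).1 hj)
  exact absurd (key _ hr b rfl) (not_lt.2 hjb.le)

def em : Fin 10 ⊕ Fin 13 → Fin 10 ⊕ G.edgeSet := Sum.map id ed

def B : Fin 10 ⊕ Fin 13 → Fin 10 ⊕ Fin 13 → Prop
  | .inl _, .inl _ => False
  | .inl v, .inr e => v = (p e).1 ∨ v = (p e).2
  | .inr e, .inl v => v = (p e).1 ∨ v = (p e).2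
  | .inr e, .inr f => A e f

instance : DecidableRel B := fun a b => by
  cases a <;> cases b <;> unfold B <;> infer_instance

theorem hB (a b : Fin 10 ⊕ Fin 13) (h : B a b) : (mid G).Adj (em a) (em b) := by
  rcases a with a | a <;> rcases b with b | b
  · exact h
  · exact Sym2.mem_iff.2 h
  · exact Sym2.mem_iff.2 h
  · exact (adj_iff a b).2 h

theorem em_surj (x : Fin 10 ⊕ G.edgeSet) : ∃ a, x = em a := by
  rcases x with v | e
  · exact ⟨.inl v, rfl⟩
  · obtain ⟨i, rfl⟩ := ed_surj e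
    exact ⟨.inr i, rfl⟩

theorem em_inj : Function.Injective em := Sum.map_injective.2 ⟨Function.injective_id, ed_inj⟩

def D0 : Finset (Fin 10 ⊕ Fin 13) := {.inr 0, .inr 2, .inr 8, .inr 10, .inl 4, .inl 5}

def dep : Fin 10 ⊕ Fin 13 → ℕ
  | .inl _ => 9
  | .inr e => [0, 2, 0, 4, 3, 1, 0, 1, 0, 2, 0, 4, 3].getD e 0

theorem upM : ∃ D, OCD (mid G) D ∧ D.card = 6 := by
  have mD : ∀ a, em a ∈ D0.map ⟨em, em_inj⟩ ↔ a ∈ D0 := fun a => Finset.mem_map' ⟨em, em_inj⟩
  refine ⟨D0.map ⟨em, em_inj⟩, ⟨fun x hx => ?_, ?_⟩, by rw [Finset.card_map]; decide⟩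
  · obtain ⟨a, rfl⟩ := em_surj x
    obtain ⟨b, hb, hab⟩ := (by decide : ∀ a, a ∉ D0 → ∃ b ∈ D0, B a b) a (fun h => hx ((mD a).2 h))
    exact ⟨em b, (mD b).2 hb, hB a b hab⟩
  · have h6 : em (.inr 6) ∉ D0.map ⟨em, em_inj⟩ := fun h => absurd ((mD _).1 h) (by decide)
    have hs : ∀ a, a ∉ D0 → a = .inr 6 ∨ ∃ b, b ∉ D0 ∧ B b a ∧ dep b < dep a := by decide
    have key : ∀ n a (ha : em a ∉ D0.map ⟨em, em_inj⟩), dep a < n →
        ((mid G).induce ((D0.map ⟨em, em_inj⟩ : Finset _) : Set _)ᶜ).Reachable ⟨_, h6⟩ ⟨em a, ha⟩ := by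
      intro n
      induction n with
      | zero => intro a _ h; omega
      | succ n ih =>
        intro a ha h
        rcases hs a (fun h => ha ((mD a).2 h)) with rfl | ⟨b, hb, hba, hd⟩
        · rfl
        · have hb' : em b ∉ D0.map ⟨em, em_inj⟩ := fun h => hb ((mD b).1 h)
          exact (ih b hb' (by omega)).trans (SimpleGraph.Adj.reachable (hB b a hba))
    rintro ⟨x, hx⟩ ⟨y, hy⟩
    obtain ⟨a, rfl⟩ := em_surj x
    obtain ⟨b, rfl⟩ := em_surj y
    exact (key _ a hx (Nat.lt_succ_self _)).symm.trans (key _ b hy (Nat.lt_succ_self _))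

theorem result : ∃ (n : ℕ) (G : SimpleGraph (Fin n)), 2 ≤ n ∧ G.Connected ∧
    ocd (mid G) < ocd G.lineGraph := by
  refine ⟨10, G, by norm_num, ?_, ?_⟩
  · have h1 : ∀ x : Fin 10, x = 0 ∨ ∃ y, G.Adj y x ∧
        [0, 1, 1, 1, 2, 3, 5, 4, 5, 6].getD y 0 < [0, 1, 1, 1, 2, 3, 5, 4, 5, 6].getD x 0 := by decide
    have key : ∀ n (x : Fin 10), [0, 1, 1, 1, 2, 3, 5, 4, 5, 6].getD x 0 < n → G.Reachable 0 x := by
      intro n
      induction n with
      | zero => intro a h; omega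
      | succ n ih =>
        intro x h
        rcases h1 x with rfl | ⟨y, hy, hd⟩
        · rfl
        · exact (ih y (by omega)).trans hy.reachable
    exact ⟨fun a b => (key _ a (Nat.lt_succ_self _)).symm.trans (key _ b (Nat.lt_succ_self _))⟩
  · have h1 : ocd (mid G) ≤ 6 := Nat.sInf_le upM
    have hne : {k | ∃ D, OCD G.lineGraph D ∧ D.card = k}.Nonempty :=
      ⟨_, Finset.univ, ⟨fun x hx => absurd (Finset.mem_univ x) hx,
        fun x => absurd x.2 (by simp)⟩, rfl⟩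
    obtain ⟨D, hD, hk⟩ := Nat.sInf_mem hne
    have := lowL D hD
    unfold ocd at *
    omega

end Pool.Agent.Results.MP_9a7beb_co.Counter
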